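import Mathlib
import Pool.Agent.X147.HsB
import Pool.Agent.X147.HsL
import Pool.Agent.X147.HsN

open Finset

namespace Pool.Agent.Results.MP_9095a7_co.AllUniformities

/-- an induced copy, in the `k`-uniform hypergraph on the vertex set `ℕ` with edge set `G`, of the
`k`-uniform hypergraph on the vertex set `Fin h` with edge set `H` -/
def InducedCopy (k : ℕ) {h : ℕ} (H : Finset (Finset (Fin h))) (G : Set (Finset ℕ)) : Prop :=
  ∃ φ : Fin h ↪ ℕ, ∀ e : Finset (Fin h), e.card = k → (e ∈ H ↔ e.map φ ∈ G)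

/-- `P` is a nonempty family of `k`-subsets of `ℕ`, each vertex lying in finitely many members -/
def LocallyFiniteFamily (k : ℕ) (P : Set (Finset ℕ)) : Prop :=
  P.Nonempty ∧ (∀ e ∈ P, e.card = k) ∧ ∀ v : ℕ, {e | e ∈ P ∧ v ∈ e}.Finite

/-- the `k`-uniform hypergraph on the vertex set `ℕ` with edge set `G` is strongly
`H`-induced-saturated -/
def StronglySaturated (k : ℕ) {h : ℕ} (H : Finset (Finset (Fin h))) (G : Set (Finset ℕ)) : Prop :=
  (∀ e ∈ G, e.card = k) ∧ ¬ InducedCopy k H G ∧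
    ∀ P : Set (Finset ℕ), LocallyFiniteFamily k P → InducedCopy k H (symmDiff G P)

/-- every pair of distinct vertices lies in an edge -/
def PairsCovered {h : ℕ} (H : Finset (Finset (Fin h))) : Prop :=
  ∀ x y : Fin h, x ≠ y → ∃ e ∈ H, x ∈ e ∧ y ∈ e

/-- every pair of distinct vertices lies in a non-edge -/
def PairsCocovered (k : ℕ) {h : ℕ} (H : Finset (Finset (Fin h))) : Prop :=
  ∀ x y : Fin h, x ≠ y → ∃ e : Finset (Fin h), e.card = k ∧ e ∉ H ∧ x ∈ e ∧ y ∈ e

lemma of_covered {k h : ℕ} (hk : 2 ≤ k) (H : Finset (Finset (Fin h)))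
    (hunif : ∀ e ∈ H, e.card = k) (hedge : ∃ e, e ∈ H)
    (hnon : ∃ e : Finset (Fin h), e.card = k ∧ e ∉ H) (hcov : PairsCovered H) :
    ∃ G : Set (Finset ℕ), StronglySaturated k H G := by
  obtain ⟨f, g, T, D⟩ := Pool.Agent.X147.Hs.exists_data hk hunif hedge hnon
  refine ⟨{s | Pool.Agent.X147.Hs.E k H f g T s}, ?_, ?_, ?_⟩
  · intro e he
    exact Pool.Agent.X147.Hs.E_card he
  · exact Pool.Agent.X147.Hs.free D hcov
  · rintro P ⟨hP, hPk, hloc⟩
    exact Pool.Agent.X147.Hs.robust D P hP hPk hloc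

lemma of_cocovered {k h : ℕ} (hk : 2 ≤ k) (H : Finset (Finset (Fin h)))
    (hunif : ∀ e ∈ H, e.card = k) (hedge : ∃ e, e ∈ H)
    (hnon : ∃ e : Finset (Fin h), e.card = k ∧ e ∉ H) (hcov : PairsCocovered k H) :
    ∃ G : Set (Finset ℕ), StronglySaturated k H G := by
  classical
  set H' : Finset (Finset (Fin h)) := powersetCard k univ \ H with hH'
  have hmem : ∀ e : Finset (Fin h), e ∈ H' ↔ e.card = k ∧ e ∉ H := by
    intro e
    rw [hH', Finset.mem_sdiff, Finset.mem_powersetCard]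
    exact ⟨fun h => ⟨h.1.2, h.2⟩, fun h => ⟨⟨Finset.subset_univ _, h.1⟩, h.2⟩⟩
  obtain ⟨G, hG1, hG2, hG3⟩ := of_covered hk H' (fun e he => ((hmem e).1 he).1)
    (by obtain ⟨e, he⟩ := hnon; exact ⟨e, (hmem e).2 he⟩)
    (by
      obtain ⟨e, he⟩ := hedge
      exact ⟨e, hunif e he, fun h => ((hmem e).1 h).2 he⟩)
    (by
      intro x y hxy
      obtain ⟨e, he1, he2, he3⟩ := hcov x y hxy
      exact ⟨e, (hmem e).2 ⟨he1, he2⟩, he3⟩)
  refine ⟨{s | s.card = k ∧ s ∉ G}, fun e he => he.1, ?_, ?_⟩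
  · rintro ⟨φ, hφ⟩
    apply hG2
    refine ⟨φ, fun e he => ?_⟩
    rw [hmem]
    have h1 := hφ e he
    have h2 : (e.map φ).card = k := by rw [Finset.card_map, he]
    simp only [Set.mem_ofPred_eq, h2, true_and] at h1
    rw [h1]
    simp [he]
  · intro P hP
    obtain ⟨φ, hφ⟩ := hG3 P hP
    refine ⟨φ, fun e he => ?_⟩
    have h1 := hφ e he
    have h2 : (e.map φ).card = k := by rw [Finset.card_map, he]
    rw [hmem, Set.mem_symmDiff] at h1
    rw [Set.mem_symmDiff]
    simp only [Set.mem_ofPred_eq, h2, true_and]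
    tauto

/-- for `k ≥ 4` one of the two pair conditions always holds -/
lemma covered_or {k h : ℕ} (hk : 4 ≤ k) (H : Finset (Finset (Fin h)))
    (hunif : ∀ e ∈ H, e.card = k) (hedge : ∃ e, e ∈ H) :
    PairsCovered H ∨ PairsCocovered k H := by
  classical
  by_contra hcon
  unfold PairsCovered PairsCocovered at hcon
  push Not at hcon
  obtain ⟨⟨x, y, hxy, h1⟩, ⟨x', y', hxy', h2⟩⟩ := hcon
  have hkh : k ≤ h := by
    obtain ⟨e, he⟩ := hedge
    have := Finset.card_le_univ e
    rw [hunif e he, Fintype.card_fin] at this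
    exact this
  have hc : ({x, y, x', y'} : Finset (Fin h)).card ≤ k := le_trans Finset.card_le_four hk
  obtain ⟨e, he1, he2⟩ := Finset.exists_superset_card_eq hc (by rw [Fintype.card_fin]; exact hkh)
  have hx : x ∈ e := he1 (by simp)
  have hy : y ∈ e := he1 (by simp)
  have hx' : x' ∈ e := he1 (by simp)
  have hy' : y' ∈ e := he1 (by simp)
  by_cases heH : e ∈ H
  · exact h1 e heH hx hy
  · exact h2 e he2 heH hx' hy'

/-- the case of uniformity three -/
lemma three {h : ℕ} (H : Finset (Finset (Fin h)))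
    (hunif : ∀ e ∈ H, e.card = 3) (hedge : ∃ e, e ∈ H)
    (hnon : ∃ e : Finset (Fin h), e.card = 3 ∧ e ∉ H) :
    ∃ G : Set (Finset ℕ), StronglySaturated 3 H G := by
  classical
  by_cases hh : 5 ≤ h ∨ (∀ x y, ¬ Pool.Agent.X147.Hc.Unc H x y) ∨
      (∀ x y, ¬ Pool.Agent.X147.Hc.Full H x y)
  · obtain ⟨G, hG1, hG2, hG3⟩ := Pool.Agent.X147.Hc.exists_three hunif hedge hnon hh
    refine ⟨G, hG1, hG2, ?_⟩
    rintro P ⟨hP, hPk, hloc⟩
    exact hG3 P hP hPk hloc
  · push Not at hh
    obtain ⟨h5, ⟨x, y, hxy⟩, ⟨p, q, hpq⟩⟩ := hh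
    have h3 : 3 ≤ h := by
      obtain ⟨e, he⟩ := hedge
      have := Finset.card_le_univ e
      rw [hunif e he, Fintype.card_fin] at this
      exact this
    have hxp : x ≠ p := by rintro rfl; exact Pool.Agent.X147.Hc.unc_full h3 hxy hpq
    have hxq : x ≠ q := by rintro rfl; exact Pool.Agent.X147.Hc.unc_full h3 hxy hpq.symm
    have hyp : y ≠ p := by rintro rfl; exact Pool.Agent.X147.Hc.unc_full h3 hxy.symm hpq
    have hyq : y ≠ q := by rintro rfl; exact Pool.Agent.X147.Hc.unc_full h3 hxy.symm hpq.symm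
    have h4 : h = 4 := by
      have hc : ({x, y, p, q} : Finset (Fin h)).card = 4 := by
        rw [Finset.card_insert_of_notMem, Finset.card_insert_of_notMem,
          Finset.card_pair hpq.1]
        · simp [hyp, hyq]
        · simp [hxy.1, hxp, hxq]
      have := Finset.card_le_univ ({x, y, p, q} : Finset (Fin h))
      rw [hc, Fintype.card_fin] at this
      omega
    subst h4
    set v : ℕ → Finset ℤ := fun n => (Denumerable.eqv (Finset ℤ)).symm n with hv
    have hvb : Function.Bijective v := (Denumerable.eqv (Finset ℤ)).symm.bijective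
    refine ⟨{s | Pool.Agent.X147.Hc.UE v s}, fun e he => he.1, ?_, ?_⟩
    · rintro ⟨φ, hφ⟩
      have hmap : ∀ a b c : Fin 4, ({a, b, c} : Finset (Fin 4)).map φ = {φ a, φ b, φ c} := by
        intro a b c
        rw [Finset.map_insert, Finset.map_insert, Finset.map_singleton]
      have hne : ∀ {a b : Fin 4}, a ≠ b → φ a ≠ φ b := fun hab hc => hab (φ.injective hc)
      have e1 := hφ {x, y, p} (Pool.Agent.X147.Hc.card3 hxy.1 hxp hyp)
      have e2 := hφ {x, y, q} (Pool.Agent.X147.Hc.card3 hxy.1 hxq hyq)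
      have e3 := hφ {x, p, q} (Pool.Agent.X147.Hc.card3 hxp hxq hpq.1)
      have e4 := hφ {y, p, q} (Pool.Agent.X147.Hc.card3 hyp hyq hpq.1)
      rw [hmap] at e1 e2 e3 e4
      refine Pool.Agent.X147.Hc.free4 hvb.1 (hne hxy.1) (hne hxp) (hne hxq) (hne hyp) (hne hyq)
        (hne hpq.1) ?_ ?_ ?_ ?_
      · exact fun h => hxy.2 _ (e1.2 h) (by simp) (by simp)
      · exact fun h => hxy.2 _ (e2.2 h) (by simp) (by simp)
      · exact e3.1 (hpq.2 _ (Pool.Agent.X147.Hc.card3 hxp hxq hpq.1) (by simp) (by simp))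
      · exact e4.1 (hpq.2 _ (Pool.Agent.X147.Hc.card3 hyp hyq hpq.1) (by simp) (by simp))
    · rintro P ⟨hP, hPk, hloc⟩
      exact Pool.Agent.X147.Hc.sat4 hvb hP hPk hloc hxy.1 hxp hxq hyp hyq hpq.1 hxy hpq

/-- **Theorem.** For every `k ≥ 3` and every finite `k`-uniform hypergraph `H` with at least one
edge and at least one non-edge there is a strongly `H`-induced-saturated `k`-uniform hypergraph
on the vertex set `ℕ`. -/
theorem result (k : ℕ) (hk : 3 ≤ k) (h : ℕ) (H : Finset (Finset (Fin h)))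
    (hunif : ∀ e ∈ H, e.card = k) (hedge : ∃ e, e ∈ H)
    (hnon : ∃ e : Finset (Fin h), e.card = k ∧ e ∉ H) :
    ∃ G : Set (Finset ℕ), StronglySaturated k H G := by
  rcases eq_or_lt_of_le hk with h3 | h4
  · subst h3
    exact three H hunif hedge hnon
  · rcases covered_or h4 H hunif hedge with hc | hc
    · exact of_covered (by omega) H hunif hedge hnon hc
    · exact of_cocovered (by omega) H hunif hedge hnon hc

end Pool.Agent.Results.MP_9095a7_co.AllUniformities
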